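import Pool.Agent.N206.HJ.Stm

/-!
Project HJ (helper206), part TAY: Taylor formula of order one for automorphisms.
Lean proof: helper768.
-/

set_option autoImplicit false

namespace Pool.Agent.N768.HJ

open Pool.Agent.N206.HJ MvPowerSeries

variable {p : ℕ}

/-- the error term -/
noncomputable def EE (u : Au p) (f : A p) : A p := u f - f - vf (fun i => u (X i) - X i) f

lemma EE_add (u : Au p) (f g : A p) : EE u (f + g) = EE u f + EE u g := by
  unfold EE
  rw [map_add, vf_add]
  ring

lemma EE_zero (u : Au p) : EE u 0 = 0 := by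
  have := EE_add u 0 0
  rw [add_zero] at this
  exact left_eq_add.1 this

lemma vf_smul (D : Fin 3 → A p) (c : ZMod p) (f : A p) : vf D (c • f) = c • vf D f := by
  rw [vf, vf, Finset.smul_sum]
  refine Finset.sum_congr rfl fun j _ => ?_
  rw [Derivation.map_smul, mul_smul_comm]

lemma EE_smul (u : Au p) (c : ZMod p) (f : A p) : EE u (c • f) = c • EE u f := by
  unfold EE
  rw [map_smul, vf_smul, smul_sub, smul_sub]

lemma EE_sum (u : Au p) {ι : Type*} (s : Finset ι) (f : ι → A p) :
    EE u (∑ i ∈ s, f i) = ∑ i ∈ s, EE u (f i) := by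
  classical
  induction s using Finset.induction_on with
  | empty => simp [EE_zero]
  | insert a s ha ih => rw [Finset.sum_insert ha, Finset.sum_insert ha, EE_add, ih]

lemma vf_one (D : Fin 3 → A p) : vf D 1 = 0 := by
  have := vf_mul D 1 1
  rw [mul_one, one_mul] at this
  exact left_eq_add.1 this

lemma EE_one (u : Au p) : EE u 1 = 0 := by
  unfold EE
  rw [map_one, vf_one, sub_self, sub_self]

lemma EE_X_mul (u : Au p) (j : Fin 3) (f : A p) :
    EE u (X j * f) = X j * EE u f + (u (X j) - X j) * vf (fun i => u (X i) - X i) f +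
      (u (X j) - X j) * EE u f := by
  unfold EE
  rw [map_mul, vf_mul, vf_X]
  ring

lemma mono_mem (α : Fin 3 →₀ ℕ) (c : ZMod p) : (monomial α c : A p) ∈ M p α.degree := by
  classical
  intro β hβ
  rw [coeff_monomial]
  split_ifs with h
  · rw [h] at hβ
    exact absurd hβ (lt_irrefl _)
  · rfl

lemma EE_mono {u : Au p} {r : ℕ} (hu : ∀ i, u (X i) - X i ∈ M p (r + 1)) : ∀ (n : ℕ)
    (α : Fin 3 →₀ ℕ), α.degree = n → EE u (monomial α 1) ∈ M p (n + 2 * r) := by
  intro n
  induction n with
  | zero =>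
    intro α hα
    have h0 : α = 0 := (Finsupp.degree_eq_zero_iff α).1 hα
    have h1 : (monomial α (1 : ZMod p) : A p) = 1 := by rw [h0]; rfl
    rw [h1, EE_one]
    exact Ideal.zero_mem _
  | succ n ih =>
    intro α hα
    obtain ⟨j, hj⟩ : ∃ j, α j ≠ 0 := by
      by_contra hcon
      push Not at hcon
      have h0 : α = 0 := Finsupp.ext hcon
      rw [h0, map_zero] at hα
      omega
    have hle : Finsupp.single j 1 ≤ α := by
      rw [Finsupp.single_le_iff]
      omega
    obtain ⟨β, hβ⟩ : ∃ β, α = Finsupp.single j 1 + β := ⟨α - Finsupp.single j 1,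
      (add_tsub_cancel_of_le hle).symm⟩
    have hdeg : β.degree = n := by
      have h1 : α.degree = (Finsupp.single j 1).degree + β.degree := by rw [hβ, map_add]
      rw [Finsupp.degree_single] at h1
      omega
    have hm : (monomial α (1 : ZMod p) : A p) = X j * monomial β 1 := by
      rw [X_def, monomial_mul_monomial, ← hβ, mul_one]
    have hih := ih β hdeg
    have hmem : (monomial β (1 : ZMod p) : A p) ∈ M p n := by
      have := mono_mem (p := p) β 1
      rwa [hdeg] at this
    have hV : vf (fun i => u (X i) - X i) (monomial β (1 : ZMod p) : A p) ∈ M p (r + n) :=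
      M_anti (by omega) (vf_mem hu hmem)
    rw [hm, EE_X_mul]
    refine Ideal.add_mem _ (Ideal.add_mem _ ?_ ?_) ?_
    · exact M_anti (by omega) (M_mul (X_mem j) hih)
    · exact M_anti (by omega) (M_mul (hu j) hV)
    · exact M_anti (by omega) (M_mul (hu j) hih)

theorem t_TAY (p : ℕ) [Fact p.Prime] : S_TAY p := by
  classical
  intro u s hs hu1 hu t f hf
  obtain ⟨r, rfl⟩ : ∃ r, s = r + 1 := ⟨s - 1, by omega⟩
  have hN : t + 2 * (r + 1) - 2 = t + 2 * r := by omega
  rw [hN]
  show EE u f ∈ M p (t + 2 * r)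
  obtain ⟨S, hS⟩ : ∃ S : Finset (Fin 3 →₀ ℕ), ∀ α, α ∈ S ↔ α.degree ≤ t + 2 * r :=
    ⟨(Finsupp.finite_of_degree_le (t + 2 * r)).toFinset, fun α => by
      rw [Set.Finite.mem_toFinset]; rfl⟩
  obtain ⟨g, hg⟩ : ∃ g : A p, g = ∑ α ∈ S, monomial α (coeff α f) := ⟨_, rfl⟩
  have hr : f - g ∈ M p (t + 2 * r) := by
    intro β hβ
    rw [map_sub, hg, map_sum, Finset.sum_eq_single β]
    · rw [coeff_monomial, if_pos rfl, sub_self]
    · intro α _ hne
      rw [coeff_monomial, if_neg hne.symm]
    · intro h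
      exact absurd ((hS β).2 hβ.le) h
  have h1 : EE u f = EE u g + EE u (f - g) := by rw [← EE_add]; congr 1; ring
  rw [h1]
  refine Ideal.add_mem _ ?_ ?_
  · rw [hg, EE_sum]
    refine Ideal.sum_mem _ fun α _ => ?_
    have h2 : (monomial α (coeff α f) : A p) = coeff α f • monomial α (1 : ZMod p) := by
      rw [← map_smul, smul_eq_mul, mul_one]
    by_cases hα : α.degree < t
    · rw [hf α hα, map_zero, EE_zero]
      exact Ideal.zero_mem _
    · rw [h2, EE_smul]
      have h3 := M_anti (i := t + 2 * r) (by omega) (EE_mono hu α.degree α rfl)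
      intro β hβ
      rw [coeff_smul, h3 β hβ, mul_zero]
  · unfold EE
    refine Ideal.sub_mem _ (Ideal.sub_mem _ (Ga_pres hu1 hr) hr) ?_
    exact M_anti (by omega) (vf_mem hu hr)

end Pool.Agent.N768.HJ
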